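import Pool.Agent.W5h80.Ell.Sup
import Pool.Agent.W5h80.Bil.F

/-! Correlations of multiplicative functions with arbitrary functions, for almost all shifts in thin families. -/

set_option autoImplicit false

namespace Pool.Agent.W5h80.Ell

open Finset
open Pool.Agent.H373R2.T7 (exI)
open Pool.Agent.W5h80.Bil (EnZ thin_corr)

theorem thin_avg (h B : ℕ) (K ε : ℝ) (hh : 1 ≤ h) (hB : 1 ≤ B) (hK : 0 < K) (hε : 0 < ε) : ∃ A N₀ : ℕ, 1 ≤ A ∧
    ∀ N : ℕ, N₀ ≤ N → ∀ f : ℕ → ℂ, Mult f → SmallMeans f A (2 * B * N) →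
    ∀ (ι : Type) [Fintype ι] (v : ι → ℤ), (∀ i, |v i| ≤ B * N) →
      (EnZ h v : ℝ) * N ≤ K * (Fintype.card ι : ℝ) ^ (2 * h) →
      ∀ (g : ℕ → ℂ) (x : ℕ), x ≤ B * N → (∀ n, ‖g n‖ ≤ 1) → ∀ c : ι → ℂ, (∀ i, ‖c i‖ ≤ 1) →
      ‖∑ i, c i * ∑ n ∈ Icc 1 x, g n * exI f (n + v i)‖ ≤ ε * (N * Fintype.card ι) := by
  classical
  have hBr : (1 : ℝ) ≤ B := by exact_mod_cast hB
  obtain ⟨c₀, hc₀⟩ : ∃ c₀ : ℝ, c₀ = (B : ℝ) ^ h * ((2 * B : ℝ) ^ (h - 1) * ((2 * B) ^ 2 * K)) := ⟨_, rfl⟩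
  have hc₀0 : 0 < c₀ := by rw [hc₀]; positivity
  obtain ⟨η, hη⟩ : ∃ η : ℝ, η = ε ^ h / (c₀ + 1) := ⟨_, rfl⟩
  have hη0 : 0 < η := by rw [hη]; positivity
  obtain ⟨A, Z₀, hA, hsup⟩ := sup_small η hη0
  refine ⟨A, Z₀ + 1, hA, ?_⟩
  intro N hN f hf hm ι _ v hv hE g x hx hg c hc
  have hN0 : (0 : ℝ) < N := by exact_mod_cast (by omega : 0 < N)
  have hZN : N ≤ 2 * B * N := by
    have : 1 * N ≤ 2 * B * N := Nat.mul_le_mul_right _ (by omega)
    omega
  have hS := hsup (2 * B * N) (by omega) f hf hm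
  have key := thin_corr f g hf.1 x (2 * B * N) (B * N) h hh v c hc (by push_cast; exact hv) (by
    have : 2 * B * N = B * N + B * N := by ring
    omega) (η * ((2 * B * N : ℕ) : ℝ)) 1 hS (fun n _ => hg n)
  obtain ⟨I, hI⟩ : ∃ I : ℝ, I = Fintype.card ι := ⟨_, rfl⟩
  rw [← hI] at hE ⊢
  have hI0 : 0 ≤ I := by rw [hI]; positivity
  have hxr : (x : ℝ) ≤ B * N := by exact_mod_cast hx
  have key2 : ((x : ℝ) * 1 ^ 2) ^ h * (((2 * B * N : ℕ) : ℝ) ^ (h - 1) * ((η * ((2 * B * N : ℕ) : ℝ)) ^ 2 * EnZ h v)) ≤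
      (ε * (N * I)) ^ (2 * h) := by
    push_cast
    rw [one_pow, mul_one]
    have a1 : (x : ℝ) ^ h ≤ (B * N : ℝ) ^ h := pow_le_pow_left₀ (by positivity) hxr h
    have a2 : (EnZ h v : ℝ) ≤ K * I ^ (2 * h) / N := by
      rw [le_div_iff₀ hN0]
      exact hE
    have e3 : (N : ℝ) ^ h * (N : ℝ) ^ (h - 1) * N = N ^ (2 * h) := by
      rw [mul_assoc, ← pow_succ, ← pow_add]
      congr 1
      omega
    have hcη : c₀ * η ^ 2 ≤ ε ^ (2 * h) := by
      rw [hη, div_pow, ← mul_div_assoc, div_le_iff₀ (by positivity), ← pow_mul, mul_comm h 2, mul_comm]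
      apply mul_le_mul_of_nonneg_left _ (by positivity)
      nlinarith
    calc (x : ℝ) ^ h * ((2 * B * N : ℝ) ^ (h - 1) * ((η * (2 * B * N)) ^ 2 * EnZ h v))
        ≤ (B * N : ℝ) ^ h * ((2 * B * N : ℝ) ^ (h - 1) * ((η * (2 * B * N)) ^ 2 * (K * I ^ (2 * h) / N))) := by
          apply mul_le_mul a1 _ (by positivity) (by positivity)
          apply mul_le_mul_of_nonneg_left _ (by positivity)
          exact mul_le_mul_of_nonneg_left a2 (by positivity)
      _ = c₀ * η ^ 2 * (I ^ (2 * h) * ((N : ℝ) ^ h * (N : ℝ) ^ (h - 1) * N)) := by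
          rw [hc₀, mul_pow (B : ℝ), mul_pow (2 * B : ℝ) (N : ℝ)]
          field_simp
      _ = c₀ * η ^ 2 * (I ^ (2 * h) * N ^ (2 * h)) := by rw [e3]
      _ ≤ ε ^ (2 * h) * (I ^ (2 * h) * N ^ (2 * h)) := mul_le_mul_of_nonneg_right hcη (by positivity)
      _ = (ε * (N * I)) ^ (2 * h) := by ring
  exact (pow_le_pow_iff_left₀ (norm_nonneg _) (by positivity) (by omega)).1 (key.trans key2)

/-- almost all shifts -/
theorem thin_ell (h B L : ℕ) (K ε : ℝ) (hh : 1 ≤ h) (hB : 1 ≤ B) (hε : 0 < ε) : ∃ A N₀ : ℕ, 1 ≤ A ∧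
    ∀ N : ℕ, N₀ ≤ N → ∀ f : ℕ → ℂ, Mult f → SmallMeans f A (2 * B * N) →
    ∀ (ι : Type) [Fintype ι] (v : ι → ℤ), (∀ i, |v i| ≤ B * N) →
      (EnZ h v : ℝ) * N ≤ K * (Fintype.card ι : ℝ) ^ (2 * h) →
      ∀ g : Fin L → ℕ → ℂ, (∀ l n, ‖g l n‖ ≤ 1) →
      (Nat.card {i : ι // ∃ l, ∃ x : ℕ, x ≤ B * N ∧ ε * N < ‖∑ n ∈ Icc 1 x, g l n * exI f (n + v i)‖} : ℝ) ≤
        ε * Fintype.card ι := by
  classical
  have hBr : (1 : ℝ) ≤ B := by exact_mod_cast hB
  obtain ⟨J₀, hJ₀⟩ := exists_nat_ge (4 * B / ε + 1)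
  have hJ₀0 : (0 : ℝ) < J₀ := by
    have : (0 : ℝ) < 4 * B / ε := by positivity
    linarith
  obtain ⟨ε', hε'⟩ : ∃ ε' : ℝ, ε' = ε ^ 2 / (2 * (L + 1) * J₀) := ⟨_, rfl⟩
  have hε'0 : 0 < ε' := by rw [hε']; positivity
  obtain ⟨A, N₁, hA, h1⟩ := thin_avg h B (max K 1) ε' hh hB (lt_max_of_lt_right one_pos) hε'0
  obtain ⟨N₂, hN₂⟩ := exists_nat_ge (4 / ε)
  refine ⟨A, N₁ + N₂ + 1, hA, ?_⟩
  intro N hN f hf hm ι _ v hv hE g hg
  have hN0 : (0 : ℝ) < N := by exact_mod_cast (by omega : 0 < N)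
  have hεN : 4 ≤ ε * N := by
    have h2 : 4 / ε ≤ N := hN₂.trans (by exact_mod_cast (by omega : N₂ ≤ N))
    rw [div_le_iff₀ hε] at h2
    linarith
  have hav := h1 N (by omega) f hf hm ι v hv (hE.trans (mul_le_mul_of_nonneg_right (le_max_left _ _) (by positivity)))
  obtain ⟨D, hD⟩ : ∃ D, D = ⌊ε * N / 2⌋₊ := ⟨_, rfl⟩
  have hD1 : (D : ℝ) ≤ ε * N / 2 := by rw [hD]; exact Nat.floor_le (by positivity)
  have hD2 : ε * N / 4 ≤ D := by
    have a1 : ε * N / 2 < D + 1 := by rw [hD]; exact Nat.lt_floor_add_one _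
    linarith
  have hDpos : 0 < D := by exact_mod_cast (by linarith : (0 : ℝ) < D)
  have hJ : B * N / D < J₀ := by
    have a1 : ((B * N / D : ℕ) : ℝ) ≤ ((B * N : ℕ) : ℝ) / D := Nat.cast_div_le
    have a2 : ((B * N : ℕ) : ℝ) / D ≤ 4 * B / ε := by
      rw [div_le_div_iff₀ (by exact_mod_cast hDpos) hε]
      push_cast
      have : (B : ℝ) * (ε * N) ≤ B * (4 * D) := mul_le_mul_of_nonneg_left (by linarith) (by positivity)
      linarith
    exact_mod_cast (by linarith : ((B * N / D : ℕ) : ℝ) < J₀)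
  obtain ⟨Q, hQ⟩ : ∃ Q : Fin L × ℕ → Finset ι, Q = fun p => univ.filter (fun i =>
    ε * N / 2 < ‖∑ n ∈ Icc 1 (D * p.2), g p.1 n * exI f (n + v i)‖) := ⟨_, rfl⟩
  obtain ⟨E, hEd⟩ : ∃ E : Finset ι, E = univ.filter (fun i => ∃ l, ∃ x : ℕ, x ≤ B * N ∧
    ε * N < ‖∑ n ∈ Icc 1 x, g l n * exI f (n + v i)‖) := ⟨_, rfl⟩
  have hsub : E ⊆ ((univ : Finset (Fin L)) ×ˢ (range J₀).filter (fun j => D * j ≤ B * N)).biUnion Q := by
    intro i hi
    rw [hEd, mem_filter] at hi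
    obtain ⟨l, x, hx, hlt⟩ := hi.2
    have hx1 : D * (x / D) ≤ x := Nat.mul_div_le x D
    rw [mem_biUnion]
    refine ⟨(l, x / D), ?_, ?_⟩
    · rw [mem_product, mem_filter, mem_range]
      refine ⟨mem_univ _, ?_, hx1.trans hx⟩
      exact lt_of_le_of_lt (Nat.div_le_div_right hx) hJ
    · rw [hQ]
      simp only [mem_filter, mem_univ, true_and]
      have hx2 : x < D * (x / D) + D := by
        have := Nat.lt_mul_div_succ x hDpos
        rw [mul_add, mul_one] at this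
        exact this
      have e1 : ∑ n ∈ Icc 1 x, g l n * exI f (n + v i) = ∑ n ∈ Icc 1 (D * (x / D)), g l n * exI f (n + v i) +
          ∑ n ∈ Ioc (D * (x / D)) x, g l n * exI f (n + v i) := by
        have e2 : Icc 1 x = Ioc 0 x := by ext n; rw [mem_Icc, mem_Ioc]; omega
        have e3 : Icc 1 (D * (x / D)) = Ioc 0 (D * (x / D)) := by ext n; rw [mem_Icc, mem_Ioc]; omega
        rw [e2, e3, sum_Ioc_consecutive _ (Nat.zero_le _) hx1]
      have e4 : ‖∑ n ∈ Ioc (D * (x / D)) x, g l n * exI f (n + v i)‖ ≤ ε * N / 2 := by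
        refine (norm_sum_le _ _).trans ?_
        have e5 : ∀ n ∈ Ioc (D * (x / D)) x, ‖g l n * exI f (n + v i)‖ ≤ 1 := by
          intro n _
          rw [norm_mul]
          have e6 : ‖exI f (n + v i)‖ ≤ 1 := by
            unfold exI
            split_ifs
            · exact hf.1 _
            · rw [norm_zero]; exact zero_le_one
          exact mul_le_one₀ (hg l n) (norm_nonneg _) e6
        refine (sum_le_sum e5).trans ?_
        rw [sum_const, Nat.card_Ioc, nsmul_eq_mul, mul_one]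
        have e8 : ((x - D * (x / D) : ℕ) : ℝ) ≤ D := by exact_mod_cast (by omega : x - D * (x / D) ≤ D)
        exact e8.trans hD1
      have e9 : ‖∑ n ∈ Icc 1 x, g l n * exI f (n + v i)‖ ≤ ‖∑ n ∈ Icc 1 (D * (x / D)), g l n * exI f (n + v i)‖ +
          ε * N / 2 := by
        rw [e1]
        exact (norm_add_le _ _).trans (by linarith)
      linarith
  obtain ⟨I, hI⟩ : ∃ I : ℝ, I = Fintype.card ι := ⟨_, rfl⟩
  rw [← hI] at hav ⊢
  have hI0 : 0 ≤ I := by rw [hI]; positivity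
  have hcls : ∀ p ∈ (univ : Finset (Fin L)) ×ˢ (range J₀).filter (fun j => D * j ≤ B * N),
      ((Q p).card : ℝ) ≤ 2 * ε' / ε * I := by
    rintro ⟨l, j⟩ hp
    rw [mem_product, mem_filter] at hp
    obtain ⟨s, hs⟩ : ∃ s : ι → ℂ, s = fun i => ∑ n ∈ Icc 1 (D * j), g l n * exI f (n + v i) := ⟨_, rfl⟩
    obtain ⟨c, hc⟩ : ∃ c : ι → ℂ, c = fun i => if i ∈ Q (l, j) then starRingEnd ℂ (s i) / ‖s i‖ else 0 := ⟨_, rfl⟩
    have hc1 : ∀ i, ‖c i‖ ≤ 1 := by
      intro i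
      rw [hc]
      simp only
      split_ifs
      · rw [norm_div, RCLike.norm_conj, Complex.norm_real, norm_norm]
        exact div_self_le_one _
      · rw [norm_zero]; exact zero_le_one
    have h3 := hav (g l) (D * j) hp.2.2 (hg l) c hc1
    have h4 : ∑ i, c i * ∑ n ∈ Icc 1 (D * j), g l n * exI f (n + v i) = ((∑ i ∈ Q (l, j), ‖s i‖ : ℝ) : ℂ) := by
      have h5 : ∀ i, c i * ∑ n ∈ Icc 1 (D * j), g l n * exI f (n + v i) = if i ∈ Q (l, j) then ((‖s i‖ : ℝ) : ℂ) else 0 := by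
        intro i
        have h6 : ∑ n ∈ Icc 1 (D * j), g l n * exI f (n + v i) = s i := by rw [hs]
        rw [h6, hc]
        simp only
        split_ifs with h7
        · by_cases h8 : s i = 0
          · rw [h8]; simp
          · have h9 : ((‖s i‖ : ℝ) : ℂ) ≠ 0 := by
              rw [Ne, Complex.ofReal_eq_zero, norm_eq_zero]
              exact h8
            rw [div_mul_eq_mul_div, div_eq_iff h9, mul_comm, Complex.mul_conj']
            ring
        · rw [zero_mul]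
      rw [sum_congr rfl fun i _ => h5 i, Complex.ofReal_sum, ← sum_filter]
      congr 1
      ext i
      simp
    rw [h4, Complex.norm_real, Real.norm_of_nonneg (sum_nonneg fun i _ => norm_nonneg _)] at h3
    have h5 : ((Q (l, j)).card : ℝ) * (ε * N / 2) ≤ ∑ i ∈ Q (l, j), ‖s i‖ := by
      rw [← nsmul_eq_mul, ← sum_const]
      refine sum_le_sum fun i hi => ?_
      rw [hQ] at hi
      simp only [mem_filter, mem_univ, true_and] at hi
      rw [hs]
      exact hi.le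
    have h6 := h5.trans h3
    rw [← le_div_iff₀ (by positivity)] at h6
    refine h6.trans (le_of_eq ?_)
    field_simp
  have hcard : (E.card : ℝ) ≤ ∑ p ∈ (univ : Finset (Fin L)) ×ˢ (range J₀).filter (fun j => D * j ≤ B * N),
      ((Q p).card : ℝ) := by
    exact_mod_cast (card_le_card hsub).trans card_biUnion_le
  have hfin : (E.card : ℝ) ≤ ε * I := by
    refine hcard.trans ((sum_le_sum hcls).trans ?_)
    rw [sum_const, card_product, card_univ, Fintype.card_fin, nsmul_eq_mul]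
    push_cast
    have h7 : (((range J₀).filter (fun j => D * j ≤ B * N)).card : ℝ) ≤ J₀ := by
      have := card_filter_le (range J₀) (fun j => D * j ≤ B * N)
      rw [card_range] at this
      exact_mod_cast this
    have h8 : (L : ℝ) * (((range J₀).filter (fun j => D * j ≤ B * N)).card : ℝ) ≤ (L + 1) * J₀ :=
      mul_le_mul (by linarith) h7 (Nat.cast_nonneg _) (by positivity)
    calc (L : ℝ) * (((range J₀).filter (fun j => D * j ≤ B * N)).card : ℝ) * (2 * ε' / ε * I)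
        ≤ ((L + 1) * J₀) * (2 * ε' / ε * I) := mul_le_mul_of_nonneg_right h8 (by positivity)
      _ = ε * I := by
          rw [hε']
          field_simp
  rw [hEd] at hfin
  rw [Nat.card_eq_fintype_card, Fintype.card_subtype]
  exact hfin

end Pool.Agent.W5h80.Ell
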