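import Pool.Agent.W5h80.Ell.Minor

/-! Exponential sums of bounded multiplicative functions with small means in progressions, uniformly. -/

set_option autoImplicit false

namespace Pool.Agent.W5h80.Ell

open Finset
open Pool.Agent.H807R2.Dav (ee norm_ee ee_add ee_int ee_pow ee_zero)
open Pool.Agent.TH823.MRS (LS LS_large)

/-- multiplicative functions with values in the unit disc -/
def Mult (f : ℕ → ℂ) : Prop :=
  (∀ n, ‖f n‖ ≤ 1) ∧ ∀ m n : ℕ, 1 ≤ m → 1 ≤ n → Nat.Coprime m n → f (m * n) = f m * f n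

/-- the sums of `f` over all initial segments up to `Z` of all progressions of modulus at most `A` are at most `Z / A` -/
def SmallMeans (f : ℕ → ℂ) (A Z : ℕ) : Prop := ∀ q r : ℕ, 1 ≤ q → q ≤ A → ∀ M : ℕ, M ≤ Z →
  ‖∑ n ∈ (Icc 1 M).filter (fun n => n ≡ r [MOD q]), f n‖ ≤ Z / A

lemma ee_near (x y : ℝ) : ‖ee x - ee y‖ ≤ 7 * |x - y| := by
  have h1 : ee x - ee y = ee y * (ee (x - y) - 1) := by
    have := ee_add y (x - y)
    rw [add_sub_cancel] at this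
    rw [this]
    ring
  rw [h1, norm_mul, norm_ee, one_mul]
  have h3 : ee (x - y) = Complex.exp (Complex.I * ((2 * Real.pi * (x - y) : ℝ) : ℂ)) := by
    unfold ee
    congr 1
    push_cast
    ring
  rw [h3]
  have h4 := Real.norm_exp_I_mul_ofReal_sub_one_le (x := 2 * Real.pi * (x - y))
  refine h4.trans ?_
  rw [Real.norm_eq_abs, abs_mul, abs_of_pos (by positivity)]
  have hpi := Real.pi_lt_d2
  nlinarith [abs_nonneg (x - y)]

/-- the sum over a rational phase -/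
lemma rat_phase (f : ℕ → ℂ) (A Z : ℕ) (hf : SmallMeans f A Z) (q : ℕ) (hq : 1 ≤ q) (hqA : q ≤ A) (a : ℤ) (M : ℕ)
    (hM : M ≤ Z) : ‖∑ n ∈ Icc 1 M, f n * ee ((n : ℝ) * ((a : ℝ) / q))‖ ≤ q * (Z / A) := by
  classical
  have hq0 : (q : ℝ) ≠ 0 := by exact_mod_cast (by omega : q ≠ 0)
  have h1 : ∀ n : ℕ, ee ((n : ℝ) * ((a : ℝ) / q)) = ee (((n % q : ℕ) : ℝ) * ((a : ℝ) / q)) := by
    intro n
    obtain ⟨k, hk⟩ : ∃ k, k = n / q := ⟨_, rfl⟩
    obtain ⟨r, hr⟩ : ∃ r, r = n % q := ⟨_, rfl⟩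
    rw [← hr]
    have h2 : (n : ℝ) = q * (k : ℝ) + (r : ℝ) := by
      rw [hk, hr]
      exact_mod_cast (Nat.div_add_mod n q).symm
    have h3 : (n : ℝ) * ((a : ℝ) / q) = (((k : ℤ) * a : ℤ) : ℝ) + (r : ℝ) * ((a : ℝ) / q) := by
      rw [h2]
      push_cast
      field_simp
    rw [h3, ee_add, ee_int, one_mul]
  have h2 : ∑ n ∈ Icc 1 M, f n * ee ((n : ℝ) * ((a : ℝ) / q)) =
      ∑ r ∈ range q, ee ((r : ℝ) * ((a : ℝ) / q)) * ∑ n ∈ (Icc 1 M).filter (fun n => n ≡ r [MOD q]), f n := by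
    rw [← sum_fiberwise_of_maps_to (s := Icc 1 M) (t := range q) (g := fun n => n % q)
      (fun n _ => mem_range.2 (Nat.mod_lt _ (by omega)))]
    refine sum_congr rfl fun r hr => ?_
    rw [mul_sum]
    have h3 : (Icc 1 M).filter (fun n => n % q = r) = (Icc 1 M).filter (fun n => n ≡ r [MOD q]) := by
      apply filter_congr
      intro n _
      unfold Nat.ModEq
      rw [Nat.mod_eq_of_lt (mem_range.1 hr)]
    rw [h3]
    refine sum_congr rfl fun n hn => ?_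
    rw [mem_filter] at hn
    have h4 : n % q = r := by
      have := hn.2
      unfold Nat.ModEq at this
      rwa [Nat.mod_eq_of_lt (mem_range.1 hr)] at this
    rw [h1 n, h4, mul_comm]
  rw [h2]
  refine (norm_sum_le _ _).trans ?_
  have h3 : ∀ r ∈ range q, ‖ee ((r : ℝ) * ((a : ℝ) / q)) * ∑ n ∈ (Icc 1 M).filter (fun n => n ≡ r [MOD q]), f n‖ ≤
      (Z : ℝ) / A := by
    intro r _
    rw [norm_mul, norm_ee, one_mul]
    exact hf q r hq hqA M hM
  refine (sum_le_sum h3).trans (le_of_eq ?_)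
  rw [sum_const, card_range, nsmul_eq_mul]

/-- major arcs -/
lemma major (f : ℕ → ℂ) (A Z : ℕ) (hf : SmallMeans f A Z) (q : ℕ) (hq : 1 ≤ q) (hqA : q ≤ A) (a : ℤ) (α V : ℝ)
    (hα : Z * |α - a / q| ≤ V) : ‖∑ n ∈ Icc 1 Z, f n * ee ((n : ℝ) * α)‖ ≤ q * (Z / A) * (1 + 7 * V) := by
  classical
  obtain ⟨β, hβ⟩ : ∃ β, β = α - a / q := ⟨_, rfl⟩
  rw [← hβ] at hα
  obtain ⟨c, hc⟩ : ∃ c : ℕ → ℂ, c = fun n => f (n + 1) * ee (((n + 1 : ℕ) : ℝ) * ((a : ℝ) / q)) := ⟨_, rfl⟩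
  obtain ⟨e, he⟩ : ∃ e : ℕ → ℂ, e = fun n => ee (((n + 1 : ℕ) : ℝ) * β) := ⟨_, rfl⟩
  have hC : ∀ M : ℕ, M ≤ Z → ‖∑ n ∈ range M, c n‖ ≤ q * (Z / A) := by
    intro M hM
    have h1 := rat_phase f A Z hf q hq hqA a M hM
    have h2 : ∑ n ∈ Icc 1 M, f n * ee ((n : ℝ) * ((a : ℝ) / q)) = ∑ n ∈ range M, c n := by
      have e1 : Icc 1 M = Ico (0 + 1) (M + 1) := by ext n; rw [mem_Icc, mem_Ico]; omega
      rw [e1, ← sum_Ico_add', hc]
      rw [Nat.Ico_zero_eq_range]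
    rw [← h2]
    exact h1
  have h0 : ∑ n ∈ Icc 1 Z, f n * ee ((n : ℝ) * α) = ∑ n ∈ range Z, e n • c n := by
    have e1 : Icc 1 Z = Ico (0 + 1) (Z + 1) := by ext n; rw [mem_Icc, mem_Ico]; omega
    rw [e1, ← sum_Ico_add', Nat.Ico_zero_eq_range]
    refine sum_congr rfl fun n _ => ?_
    rw [he, hc]
    simp only [smul_eq_mul]
    have e2 : ((n + 1 : ℕ) : ℝ) * α = ((n + 1 : ℕ) : ℝ) * ((a : ℝ) / q) + ((n + 1 : ℕ) : ℝ) * β := by rw [hβ]; ring
    rw [e2, ee_add]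
    ring
  rw [h0, sum_range_by_parts]
  refine (norm_sub_le _ _).trans ?_
  have h1 : ‖e (Z - 1) • ∑ i ∈ range Z, c i‖ ≤ q * (Z / A) := by
    rw [norm_smul, he, norm_ee, one_mul]
    exact hC Z le_rfl
  have h2 : ‖∑ i ∈ range (Z - 1), (e (i + 1) - e i) • ∑ i ∈ range (i + 1), c i‖ ≤ q * (Z / A) * (7 * V) := by
    refine (norm_sum_le _ _).trans ?_
    have h3 : ∀ i ∈ range (Z - 1), ‖(e (i + 1) - e i) • ∑ i ∈ range (i + 1), c i‖ ≤ 7 * |β| * (q * (Z / A)) := by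
      intro i hi
      rw [mem_range] at hi
      rw [norm_smul]
      apply mul_le_mul _ (hC (i + 1) (by omega)) (norm_nonneg _) (by positivity)
      rw [he]
      refine (ee_near _ _).trans (le_of_eq ?_)
      congr 1
      congr 1
      push_cast
      ring
    refine (sum_le_sum h3).trans ?_
    rw [sum_const, card_range, nsmul_eq_mul]
    have h4 : ((Z - 1 : ℕ) : ℝ) ≤ Z := by exact_mod_cast Nat.sub_le _ _
    have h5 : (0 : ℝ) ≤ q * (Z / A) := by positivity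
    calc ((Z - 1 : ℕ) : ℝ) * (7 * |β| * (q * (Z / A))) ≤ Z * (7 * |β| * (q * (Z / A))) :=
          mul_le_mul_of_nonneg_right h4 (by positivity)
      _ = 7 * (q * (Z / A)) * (Z * |β|) := by ring
      _ ≤ 7 * (q * (Z / A)) * V := mul_le_mul_of_nonneg_left hα (by positivity)
      _ = _ := by ring
  calc ‖e (Z - 1) • ∑ i ∈ range Z, c i‖ + ‖∑ i ∈ range (Z - 1), (e (i + 1) - e i) • ∑ i ∈ range (i + 1), c i‖
      ≤ q * (Z / A) + q * (Z / A) * (7 * V) := add_le_add h1 h2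
    _ = _ := by ring

/-- the exponential sums are small, uniformly -/
theorem sup_small (ε : ℝ) (hε : 0 < ε) : ∃ A Z₀ : ℕ, 1 ≤ A ∧ ∀ Z : ℕ, Z₀ ≤ Z → ∀ f : ℕ → ℂ, Mult f → SmallMeans f A Z →
    ∀ α : ℝ, ‖∑ n ∈ Icc 1 Z, f n * ee ((n : ℝ) * α)‖ ≤ ε * Z := by
  classical
  obtain ⟨P, hP⟩ := LS_large (max 1 ((60 / ε) ^ 2))
  have hL1 : 1 ≤ LS P := (le_max_left _ _).trans hP
  have hL2 : (60 / ε) ^ 2 ≤ LS P := (le_max_right _ _).trans hP
  have hsL : 60 / ε ≤ √(LS P) := Real.le_sqrt_of_sq_le hL2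
  obtain ⟨A₁, hA₁⟩ : ∃ A₁ : ℝ, A₁ = 8 / ε := ⟨_, rfl⟩
  have hA₁0 : 0 < A₁ := by rw [hA₁]; positivity
  obtain ⟨W, hW⟩ : ∃ W : ℕ, W = ⌈(P : ℝ) ^ 2 * (1 + 3 * A₁ * P)⌉₊ + P + 1 := ⟨_, rfl⟩
  have hW1 : 1 ≤ W := by omega
  have hPW : P ≤ W := by omega
  have hPW2 : (P : ℝ) ^ 2 * (1 + 3 * A₁ * P) ≤ W := by
    refine (Nat.le_ceil _).trans ?_
    exact_mod_cast (by omega : ⌈(P : ℝ) ^ 2 * (1 + 3 * A₁ * P)⌉₊ ≤ W)
  obtain ⟨A, hA⟩ := exists_nat_ge ((W : ℝ) * (1 + 21 * W) / ε + W + 1)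
  obtain ⟨Z₁, hZ₁⟩ := exists_nat_ge (8 / ε)
  have hW0 : (0 : ℝ) ≤ W := Nat.cast_nonneg _
  have hA0 : (0 : ℝ) ≤ (W : ℝ) * (1 + 21 * W) / ε := by positivity
  have hAr : (1 : ℝ) ≤ A := by linarith
  have hAW : W ≤ A := by exact_mod_cast (by linarith : (W : ℝ) ≤ A)
  refine ⟨A, Z₁ + 2 * P + 3, by exact_mod_cast hAr, ?_⟩
  intro Z hZ f hf hm α
  have hZ3 : (3 : ℝ) ≤ Z := by exact_mod_cast (by omega : 3 ≤ Z)
  obtain ⟨X, hX⟩ : ∃ X, X = Z / 3 + 1 := ⟨_, rfl⟩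
  have hX3 : Z < 3 * X := by omega
  have hXZ : X ≤ Z := by omega
  have hX1 : 1 ≤ X := by omega
  have hXr : (1 : ℝ) ≤ X := by exact_mod_cast hX1
  have hX3r : (Z : ℝ) ≤ 3 * X := by exact_mod_cast hX3.le
  have hXZr : (X : ℝ) ≤ Z := by exact_mod_cast hXZ
  by_cases hmaj : ∃ q : ℕ, 1 ≤ q ∧ q ≤ W ∧ ∃ a : ℤ, |α - a / q| ≤ (W : ℝ) / X
  · obtain ⟨q, hq1, hqW, a, ha⟩ := hmaj
    have h1 := major f A Z hm q hq1 (hqW.trans hAW) a α (3 * W) (by
      calc (Z : ℝ) * |α - a / q| ≤ (3 * X) * (W / X) := mul_le_mul hX3r ha (abs_nonneg _) (by positivity)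
        _ = 3 * W := by field_simp)
    refine h1.trans ?_
    have hqr : (q : ℝ) ≤ W := by exact_mod_cast hqW
    have h2 : (W : ℝ) * (1 + 21 * W) ≤ ε * A := by
      have h3 : (W : ℝ) * (1 + 21 * W) / ε ≤ A := by linarith
      rw [div_le_iff₀ hε] at h3
      linarith
    calc (q : ℝ) * (Z / A) * (1 + 7 * (3 * W)) ≤ W * (Z / A) * (1 + 7 * (3 * W)) := by
          apply mul_le_mul_of_nonneg_right _ (by positivity)
          exact mul_le_mul_of_nonneg_right hqr (by positivity)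
      _ = (W * (1 + 21 * W)) * (Z / A) := by ring
      _ ≤ (ε * A) * (Z / A) := mul_le_mul_of_nonneg_right h2 (by positivity)
      _ = ε * Z := by field_simp
  · push Not at hmaj
    obtain ⟨Tr, hTr⟩ : ∃ Tr : ℕ → ℝ, Tr = fun n : ℕ => max (min (A₁ * ((Z : ℝ) + 1 - (n : ℝ))) X) 0 := ⟨_, rfl⟩
    have hT0 : ∀ n, 0 ≤ Tr n := by
      intro n
      rw [hTr]
      exact le_max_right _ _
    have hTX : ∀ n, Tr n ≤ X := by
      intro n
      rw [hTr]
      exact max_le (min_le_right _ _) (by linarith)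
    have hTz : ∀ n, Z < n → Tr n = 0 := by
      intro n hn
      rw [hTr]
      simp only
      apply max_eq_right
      refine (min_le_left _ _).trans ?_
      have : (Z : ℝ) + 1 ≤ n := by exact_mod_cast hn
      apply mul_nonpos_of_nonneg_of_nonpos hA₁0.le
      linarith
    have hTL : ∀ n m : ℕ, |Tr n - Tr m| ≤ A₁ * |(n : ℝ) - m| := by
      intro n m
      rw [hTr]
      simp only
      refine (abs_max_sub_max_le_abs _ _ _).trans ?_
      have h1 : |min (A₁ * ((Z : ℝ) + 1 - n)) X - min (A₁ * ((Z : ℝ) + 1 - m)) X| ≤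
          |A₁ * ((Z : ℝ) + 1 - n) - A₁ * ((Z : ℝ) + 1 - m)| := by
        refine (abs_min_sub_min_le_max _ _ _ _).trans ?_
        rw [sub_self, abs_zero, max_eq_left (abs_nonneg _)]
      refine h1.trans (le_of_eq ?_)
      rw [← mul_sub, abs_mul, abs_of_pos hA₁0, abs_sub_comm (n : ℝ)]
      congr 2
      ring
    have h1 := minor_boundC f hf.1 (fun p m hp hpm => hf.2 p m hp.pos
      (Nat.pos_of_ne_zero (fun h0 => hpm (by rw [h0]; exact dvd_zero _))) (hp.coprime_iff_not_dvd.2 hpm)) W X X A₁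
      (by linarith) le_rfl hA₁0.le (fun n => ((Tr n : ℝ) : ℂ)) (fun n => by
        rw [Complex.norm_real, Real.norm_of_nonneg (hT0 n)]
        exact hTX n) (fun n m => by
        rw [← Complex.ofReal_sub, Complex.norm_real, Real.norm_eq_abs]
        exact hTL n m) (fun n hn => by
        rw [hTz n (by omega), Complex.ofReal_zero]) α hW1 (fun q hq1 hqW a => hmaj q hq1 hqW a) P hPW hPW2 hL1 (by omega)
    have h2 : ∑ n ∈ Icc 1 (3 * X), f n * ee ((n : ℝ) * α) * ((Tr n : ℝ) : ℂ) =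
        ∑ n ∈ Icc 1 Z, f n * ee ((n : ℝ) * α) * ((Tr n : ℝ) : ℂ) := by
      symm
      apply sum_subset
      · intro n hn
        rw [mem_Icc] at hn ⊢
        omega
      · intro n hn hn2
        rw [mem_Icc] at hn hn2
        rw [hTz n (by omega), Complex.ofReal_zero, mul_zero]
    have h3 : (X : ℂ) * ∑ n ∈ Icc 1 Z, f n * ee ((n : ℝ) * α) = ∑ n ∈ Icc 1 Z, f n * ee ((n : ℝ) * α) * ((Tr n : ℝ) : ℂ) +
        ∑ n ∈ Icc 1 Z, f n * ee ((n : ℝ) * α) * (((X : ℝ) - Tr n : ℝ) : ℂ) := by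
      rw [mul_sum, ← sum_add_distrib]
      refine sum_congr rfl fun n _ => ?_
      push_cast
      ring
    have h4 : ‖∑ n ∈ Icc 1 Z, f n * ee ((n : ℝ) * α) * (((X : ℝ) - Tr n : ℝ) : ℂ)‖ ≤ X * (X / A₁ + 1) := by
      refine (norm_sum_le _ _).trans ?_
      obtain ⟨D, hD⟩ : ∃ D, D = ⌊(X : ℝ) / A₁⌋₊ := ⟨_, rfl⟩
      have h5 : ∀ n ∈ Icc 1 Z, ‖f n * ee ((n : ℝ) * α) * (((X : ℝ) - Tr n : ℝ) : ℂ)‖ ≤ if Z - D ≤ n then (X : ℝ) else 0 := by
        intro n hn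
        rw [mem_Icc] at hn
        rw [norm_mul, norm_mul, norm_ee, mul_one, Complex.norm_real, Real.norm_of_nonneg (by linarith [hTX n])]
        split_ifs with h6
        · calc ‖f n‖ * (X - Tr n) ≤ 1 * X := mul_le_mul (hf.1 n) (by linarith [hT0 n]) (by linarith [hTX n]) zero_le_one
            _ = X := one_mul _
        · have h7 : (X : ℝ) ≤ Tr n := by
            rw [hTr]
            simp only
            refine le_max_of_le_left (le_min ?_ le_rfl)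
            have h8 : n + D + 1 ≤ Z := by omega
            have h9 : (X : ℝ) / A₁ < D + 1 := by rw [hD]; exact Nat.lt_floor_add_one _
            rw [div_lt_iff₀ hA₁0] at h9
            have h10 : (n : ℝ) + D + 1 ≤ Z := by exact_mod_cast h8
            have h11 : A₁ * ((D : ℝ) + 1) ≤ A₁ * ((Z : ℝ) + 1 - n) := mul_le_mul_of_nonneg_left (by linarith) hA₁0.le
            linarith
          have h8 : (X : ℝ) - Tr n = 0 := le_antisymm (by linarith) (by linarith [hTX n])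
          rw [h8, mul_zero]
      refine (sum_le_sum h5).trans ?_
      rw [← sum_filter, sum_const, nsmul_eq_mul, mul_comm]
      apply mul_le_mul_of_nonneg_left _ (by linarith)
      have h6 : ((Icc 1 Z).filter (fun n => Z - D ≤ n)).card ≤ D + 1 := by
        have h7 : (Icc 1 Z).filter (fun n => Z - D ≤ n) ⊆ Icc (Z - D) Z := by
          intro n hn
          rw [mem_filter, mem_Icc] at hn
          rw [mem_Icc]
          omega
        refine (card_le_card h7).trans ?_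
        rw [Nat.card_Icc]
        omega
      have h7 : (D : ℝ) ≤ X / A₁ := by rw [hD]; exact Nat.floor_le (by positivity)
      have h8 : (((Icc 1 Z).filter (fun n => Z - D ≤ n)).card : ℝ) ≤ D + 1 := by exact_mod_cast h6
      linarith
    rw [h2] at h1
    obtain ⟨S, hS⟩ : ∃ S, S = ‖∑ n ∈ Icc 1 Z, f n * ee ((n : ℝ) * α)‖ := ⟨_, rfl⟩
    rw [← hS]
    have h5 : (X : ℝ) * S ≤ 15 * X * X / √(LS P) + X * (X / A₁ + 1) := by
      have e1 : (X : ℝ) * S = ‖(X : ℂ) * ∑ n ∈ Icc 1 Z, f n * ee ((n : ℝ) * α)‖ := by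
        rw [norm_mul, Complex.norm_natCast, hS]
      rw [e1, h3]
      exact (norm_add_le _ _).trans (add_le_add h1 h4)
    have h6 : 15 * (X : ℝ) * X / √(LS P) ≤ ε / 4 * X * X := by
      have hs0 : 0 < √(LS P) := Real.sqrt_pos.2 (by linarith)
      rw [div_le_iff₀ hs0]
      have h7 : 15 ≤ ε / 4 * √(LS P) := by
        rw [div_le_iff₀ hε] at hsL
        linarith
      have h8 : 0 ≤ (X : ℝ) * X := by positivity
      calc 15 * (X : ℝ) * X = 15 * (X * X) := by ring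
        _ ≤ (ε / 4 * √(LS P)) * (X * X) := mul_le_mul_of_nonneg_right h7 h8
        _ = _ := by ring
    have h7 : (X : ℝ) / A₁ = ε / 8 * X := by rw [hA₁]; field_simp
    have h8 : (X : ℝ) * S ≤ X * (ε / 2 * X + 1) := by
      rw [h7] at h5
      have : 0 ≤ ε * X * X := by positivity
      nlinarith
    have h9 : S ≤ ε / 2 * X + 1 := le_of_mul_le_mul_left h8 (by linarith)
    have h10 : 8 / ε ≤ Z := hZ₁.trans (by exact_mod_cast (by omega : Z₁ ≤ Z))
    rw [div_le_iff₀ hε] at h10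
    nlinarith

end Pool.Agent.W5h80.Ell
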